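import Mathlib
import Pool.Agent.Hp103.AF.Rf

set_option autoImplicit false

/-!
# Lusztig's function `a` is bounded for every Coxeter group of finite rank

Let `(W, S)` be a Coxeter group with `S` finite, and
`C = (3 ^ (|S| d) - 1) / 2`, where `d` is the rank of the ring `ℤ[2 cos (π / m(s,t)) : s, t ∈ S]`
(`d = 1` if all `m(s,t)` are `1, 2, 3` or `∞`).  For every positive weight function `L`,

* the structure constants `f_{x,y,z}` of the standard basis and `h_{x,y,z}` of the
  Kazhdan-Lusztig basis of the Hecke algebra of `(W, S, L)` have degree at most `C max L(s)`, and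
  `a(w) ≤ C max L(s) ≤ C N_0` for all `w`; in particular `a` never takes the value `∞`, and
  Lusztig's bound `a ≤ N_0` holds up to a factor that does not depend on `L`;
* more precisely `deg f_{x,y,z} ≤ ∑_{t ∈ F} L(t)` for a set `F` of at most `C` reflections which
  are right inversions of `x` and left inversions of `y`, and which are pairwise incomparable: for
  `t ≠ t'` in `F` some `w` has `t`, but not `t'`, as a right inversion.  Here `L(t) = L(s)` for
  `s ∈ S` conjugate to `t`.

The exact analogue of Lusztig's bound would be the second statement with sets `F` contained in a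
finite parabolic subgroup.

Proof.  Induction on `ℓ(y)`: a letter that moves from `y` to `x` either leaves the largest weight
of an antichain unchanged, or lowers it by `L(s)` for the summand with the factor
`q ^ L(s) - q ^ (-L(s))` (weighted form of the switching lemma in `TH5.BD`).  Incomparable
inversions have different colours modulo `3` and modulo sign: the product of the two reflections
has finite order and would be trivial modulo `3`.
-/

namespace Pool.Agent.Results.MP_0d46c2_al.BoundedAFunction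

open Module Pool.Agent.TH5.BD Pool.Agent.Hp103.AF

/-- The rank `d` of the ring generated by the numbers `2 cos (π / m(s,t))` (`m(s,t) = ∞` is coded
by `0` and gives `2 cos (π / ∞) = 2`). -/
noncomputable def rk {B : Type*} (M : CoxeterMatrix B) : ℕ :=
  Module.finrank ℤ (Algebra.adjoin ℤ
    (Set.range fun p : B × B => 2 * Real.cos (Real.pi / (M p.1 p.2 : ℝ))))

/-- The constant `C`. -/
noncomputable def CC {B : Type*} (M : CoxeterMatrix B) : ℕ := (3 ^ (Nat.card B * rk M) - 1) / 2

lemma rk_eq {B : Type*} (M : CoxeterMatrix B) : rk M = Pool.Agent.Hp103.AF.deg M := rfl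

lemma rk_one {B : Type*} (M : CoxeterMatrix B) (h : ∀ i j, M i j ≤ 3) : rk M = 1 := by
  have h1 : Algebra.adjoin ℤ
      (Set.range fun p : B × B => 2 * Real.cos (Real.pi / (M p.1 p.2 : ℝ))) = ⊥ := by
    rw [eq_bot_iff]
    apply Algebra.adjoin_le
    rintro _ ⟨⟨i, j⟩, rfl⟩
    have h2 := h i j
    change 2 * Real.cos (Real.pi / (M i j : ℝ)) ∈ (⊥ : Subalgebra ℤ ℝ)
    rw [Algebra.mem_bot]
    interval_cases M i j
    · exact ⟨2, by simp⟩
    · exact ⟨-2, by simp⟩
    · exact ⟨0, by simp⟩
    · exact ⟨1, by simp⟩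
  unfold rk
  rw [h1]
  have e : (⊥ : Subalgebra ℤ ℝ) ≃ₗ[ℤ] ℤ :=
    (Algebra.botEquivOfInjective (RingHom.injective_int (algebraMap ℤ ℝ))).toLinearEquiv
  rw [e.finrank_eq, Module.finrank_self]

lemma weight_le {B : Type*} {M : CoxeterMatrix B} {W : Type*} [Group W]
    (cs : CoxeterSystem M W) {L : W → ℤ} {N : ℕ} (hN : IsNZero cs L N) (i : B) :
    L (cs.simple i) ≤ N := by
  apply hN.2
  refine ⟨{i}, ?_, cs.simple i, ?_, rfl⟩
  · unfold WJ
    rw [Set.image_singleton, ← Subgroup.zpowers_eq_closure]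
    have h1 : IsOfFinOrder (cs.simple i) :=
      isOfFinOrder_iff_pow_eq_one.2 ⟨2, by norm_num, cs.simple_sq i⟩
    exact h1.finite_zpowers
  · unfold WJ
    rw [Set.image_singleton]
    exact Subgroup.subset_closure rfl

/-- Let `(W, S)` be a Coxeter system with `S` finite, `L` a positive weight function, and `H` the
Hecke algebra of `(W, S, L)` with standard basis `T`.

(1) Let `Λ(t) = L(s)` for a reflection `t` conjugate to `s ∈ S` (this is well defined).  For all
`x, y, z` there is a set `F` of at most `C` common inversions of `x` and `y`, pairwise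
incomparable, with `deg f_{x,y,z} ≤ ∑_{t ∈ F} Λ(t)`.

(2) If all `L(s) ≤ K`, for example if `K = N_0`, then all `f_{x,y,z}` and `h_{x,y,z}` have degree at
most `C K`, and `a(w) ≤ C K` for all `w`.

(3) `C = (3 ^ |S| - 1) / 2` if all labels `m(s,t)` are `1, 2, 3` or `∞`. -/
theorem result {B : Type*} [Finite B] {M : CoxeterMatrix B} {W : Type*} [Group W]
    (cs : CoxeterSystem M W) (L : W → ℤ) (hL : IsWeight cs L) {H : Type*} [Ring H] [Algebra A H]
    (T : Basis W A H) (hT : IsHecke cs L T) :
    (∃ Λ : W → ℤ, (∀ (w : W) (i : B), Λ (w * cs.simple i * w⁻¹) = L (cs.simple i)) ∧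
      ∀ x y z : W, ∃ F : Finset W,
        (∀ t ∈ F, cs.IsRightInversion x t ∧ cs.IsLeftInversion y t) ∧
        (∀ t ∈ F, ∀ t' ∈ F, t ≠ t' →
          ∃ w, cs.IsRightInversion w t ∧ ¬ cs.IsRightInversion w t') ∧
        F.card ≤ CC M ∧
        (T.repr (T x * T y) z).degree ≤ ((∑ t ∈ F, Λ t : ℤ) : WithBot ℤ)) ∧
    (∀ K : ℕ, ((∀ i, L (cs.simple i) ≤ K) ∨ IsNZero cs L K) →
      (∀ x y z : W, (T.repr (T x * T y) z).degree ≤ (((CC M * K : ℕ) : ℤ) : WithBot ℤ)) ∧
      ∀ (bar : H →+* H) (C : Basis W A H), IsBar T bar → IsKL T bar C →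
        (∀ x y z : W, (C.repr (C x * C y) z).degree ≤ (((CC M * K : ℕ) : ℤ) : WithBot ℤ)) ∧
        ∀ w : W, aFun C w ≤ ((CC M * K : ℕ) : ℕ∞)) ∧
    ((∀ i j, M i j ≤ 3) → CC M = (3 ^ Nat.card B - 1) / 2) := by
  classical
  cases nonempty_fintype B
  have hSC := hT.isSC hL
  have hex : ∀ x y z : W, ∃ F : Finset W,
        (∀ t ∈ F, cs.IsRightInversion x t ∧ cs.IsLeftInversion y t) ∧
        (∀ t ∈ F, ∀ t' ∈ F, t ≠ t' →
          ∃ w, cs.IsRightInversion w t ∧ ¬ cs.IsRightInversion w t') ∧
        F.card ≤ CC M ∧ Dg (T.repr (T x * T y) z) (∑ t ∈ F, lam' cs L t) := by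
    intro x y z
    obtain ⟨F, h1, h2, h3, h4⟩ := exists_refl hL hSC x y z
    refine ⟨F, h1, h2, ?_, h4⟩
    unfold CC
    rw [Nat.le_div_iff_mul_le (by norm_num), Nat.card_eq_fintype_card, rk_eq]
    omega
  refine ⟨⟨lam' cs L, fun w i => lam'_conj hL w i, fun x y z => ?_⟩, fun K hK => ?_, fun h => ?_⟩
  · obtain ⟨F, h1, h2, h3, h4⟩ := hex x y z
    exact ⟨F, h1, h2, h3, dg_iff.1 h4⟩
  · have hK' : ∀ i, L (cs.simple i) ≤ K := by
      rcases hK with hK | hK
      · exact hK
      · exact fun i => weight_le cs hK i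
    have hd : ∀ x y, DgH T (T x * T y) ((CC M * K : ℕ) : ℤ) := by
      intro x y z
      obtain ⟨F, h1, -, h3, h4⟩ := hex x y z
      refine h4.mono ?_
      have h5 : ∑ t ∈ F, lam' cs L t ≤ ∑ _t ∈ F, (K : ℤ) := by
        refine Finset.sum_le_sum fun t ht => ?_
        obtain ⟨w, i, rfl⟩ := (h1 t ht).1.1
        rw [lam'_conj hL]
        exact hK' i
      refine h5.trans ?_
      rw [Finset.sum_const, nsmul_eq_mul]
      exact_mod_cast Nat.mul_le_mul_right K h3
    refine ⟨fun x y z => dg_iff.1 (hd x y z), fun bar C _ hC => ⟨fun x y z =>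
      dg_iff.1 (hC.bound hd x y z), fun w => ?_⟩⟩
    refine iSup_le fun x => iSup_le fun y => iSup_le fun n => iSup_le fun hn => ?_
    by_contra hc
    rw [not_le, Nat.cast_lt] at hc
    apply hn
    exact hC.bound hd x y w n (by exact_mod_cast hc)
  · unfold CC
    rw [rk_one M h, mul_one]

end Pool.Agent.Results.MP_0d46c2_al.BoundedAFunction
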